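import Mathlib
import Pool.Agent.U180.DP.Stm

/-!
# Randomly displaced primes: package LAW (laws and independence)
-/

set_option autoImplicit false

open MeasureTheory ProbabilityTheory Filter Topology

namespace Pool.Agent.U27.DP

open Pool.Agent.U180.DP

theorem amp_pos {A : ℝ} {p : ℕ} (hp : p.Prime) : 0 < amp A p := by
  unfold amp
  have h1 : (1 : ℝ) < p := by exact_mod_cast hp.one_lt
  have h2 : 0 < Real.log p := Real.log_pos h1
  exact div_pos (by linarith) (Real.rpow_pos_of_pos h2 A)

section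

variable {Ω : Type} [MeasurableSpace Ω] {P : Measure Ω} {A : ℝ} {U : ℕ → Ω → ℝ}

theorem dis_meas (hU : IsUnif P U) (p : ℕ) : Measurable (dis A U p) := by
  unfold dis
  exact measurable_const.add ((hU.meas p).const_mul _)

theorem ev_eq (x y : ℝ) (p : ℕ) : {ω | x < dis A U p ω ∧ dis A U p ω ≤ x + y} =
    dis A U p ⁻¹' Set.Ioc x (x + y) := by
  ext ω
  simp [Set.mem_Ioc]

/-- no displaced prime in `B` -/
def vd (A : ℝ) (U : ℕ → Ω → ℝ) (B : Set ℝ) : Set Ω := {ω | ∀ p : ℕ, p.Prime → dis A U p ω ∉ B}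

theorem void_eq (x y : ℝ) : void A U x y = vd A U (Set.Ioc x (x + y)) := by
  ext ω
  simp [void, vd, Set.mem_Ioc]

theorem vd_meas (hU : IsUnif P U) {B : Set ℝ} (hB : MeasurableSet B) :
    MeasurableSet (vd A U B) := by
  have h : vd A U B = ⋂ p : ℕ, {ω | p.Prime → dis A U p ω ∉ B} := by
    ext ω
    simp [vd]
  rw [h]
  refine MeasurableSet.iInter (fun p => ?_)
  by_cases hp : p.Prime
  · have h2 : {ω | p.Prime → dis A U p ω ∉ B} = (dis A U p ⁻¹' B)ᶜ := by
      ext ω
      simp [hp]
    rw [h2]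
    exact (dis_meas hU p hB).compl
  · have h2 : {ω | p.Prime → dis A U p ω ∉ B} = Set.univ := by
      ext ω
      simp [hp]
    rw [h2]
    exact MeasurableSet.univ

theorem unit_ae (hU : IsUnif P U) : ∀ᵐ ω ∂P, ∀ p : ℕ, 0 ≤ U p ω ∧ U p ω ≤ 1 := by
  rw [ae_all_iff]
  intro p
  have h1 : ∀ᵐ u ∂(P.map (U p)), 0 ≤ u ∧ u ≤ 1 := by
    rw [hU.law p]
    filter_upwards [ae_restrict_mem (measurableSet_Icc (a := (0 : ℝ)) (b := 1))] with u hu
    exact hu
  exact ae_of_ae_map (hU.meas p).aemeasurable h1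

/-- the product formula -/
theorem vd_real (hU : IsUnif P U) {B : Set ℝ} (hB : MeasurableSet B) (t : ℝ)
    (hBt : ∀ b ∈ B, b ≤ t) :
    P.real (vd A U B) = ∏ p ∈ prm t, (1 - P.real (dis A U p ⁻¹' B)) := by
  have := hU.prob
  let T : ℕ → Set ℝ := fun p => {u | (p : ℝ) + amp A p * u ∉ B}
  have hT : ∀ p, MeasurableSet (T p) := by
    intro p
    have hm : Measurable fun u : ℝ => (p : ℝ) + amp A p * u := by fun_prop
    exact (hm hB).compl
  have hTe : ∀ p, U p ⁻¹' T p = (dis A U p ⁻¹' B)ᶜ := by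
    intro p
    ext ω
    simp [T, dis]
  have h1 : vd A U B =ᵐ[P] (⋂ p ∈ prm t, U p ⁻¹' T p : Set Ω) := by
    filter_upwards [unit_ae hU] with ω hω
    refine propext ⟨fun h => ?_, fun h => ?_⟩
    · change ω ∈ ⋂ p ∈ prm t, U p ⁻¹' T p
      rw [Set.mem_iInter₂]
      intro p hp
      rw [hTe]
      exact h p (Finset.mem_filter.1 hp).2
    · change ω ∈ ⋂ p ∈ prm t, U p ⁻¹' T p at h
      rw [Set.mem_iInter₂] at h
      intro p hp
      by_cases hpt : p ∈ prm t
      · have := h p hpt
        rw [hTe] at this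
        exact this
      · intro hb
        have h2 := hBt _ hb
        have h3 : (p : ℝ) ≤ dis A U p ω := by
          unfold dis
          have := mul_nonneg (amp_pos (A := A) hp).le (hω p).1
          linarith
        apply hpt
        unfold prm
        rw [Finset.mem_filter, Finset.mem_range]
        refine ⟨?_, hp⟩
        have h4 : p ≤ ⌊t⌋₊ := Nat.le_floor (h3.trans h2)
        omega
  rw [measureReal_congr h1, measureReal_def,
    hU.indep.measure_inter_preimage_eq_mul (prm t) (fun p _ => hT p), ENNReal.toReal_prod]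
  refine Finset.prod_congr rfl (fun p _ => ?_)
  rw [hTe, ← measureReal_def, probReal_compl_eq_one_sub (dis_meas hU p hB)]

theorem ev_real (hU : IsUnif P U) (x y : ℝ) {p : ℕ} (hp : p.Prime) :
    P.real (dis A U p ⁻¹' Set.Ioc x (x + y)) = prb A x y p := by
  obtain ⟨h, hh⟩ : ∃ h, h = amp A p := ⟨_, rfl⟩
  have hh0 : 0 < h := by rw [hh]; exact amp_pos hp
  have h1 : dis A U p ⁻¹' Set.Ioc x (x + y) =
      U p ⁻¹' Set.Ioc ((x - p) / h) ((x + y - p) / h) := by
    ext ω
    simp only [Set.mem_preimage, Set.mem_Ioc, dis, ← hh]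
    rw [div_lt_iff₀ hh0, le_div_iff₀ hh0]
    constructor
    · rintro ⟨a, b⟩
      constructor <;> linarith
    · rintro ⟨a, b⟩
      constructor <;> linarith
  rw [h1, measureReal_def, ← Measure.map_apply (hU.meas p) measurableSet_Ioc, hU.law p,
    ← Measure.restrict_congr_set (Ioc_ae_eq_Icc (a := (0 : ℝ)) (b := 1)),
    Measure.restrict_apply measurableSet_Ioc, Set.Ioc_inter_Ioc, Real.volume_Ioc,
    ENNReal.toReal_ofReal']
  unfold prb
  rw [← hh]
  have e1 : (x + y - p) / h ⊓ 1 = (min ((p : ℝ) + h) (x + y) - p) / h := by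
    have : (1 : ℝ) = ((p : ℝ) + h - p) / h := by
      rw [add_sub_cancel_left, div_self hh0.ne']
    rw [this, min_div_div_right hh0.le, min_sub_sub_right, min_comm]
  have e2 : (x - p) / h ⊔ 0 = (max (p : ℝ) x - p) / h := by
    have : (0 : ℝ) = ((p : ℝ) - p) / h := by simp
    rw [this, max_div_div_right hh0.le, max_sub_sub_right, max_comm]
  rw [e1, e2, ← sub_div, sub_sub_sub_cancel_right, max_comm]
  have : (0 : ℝ) = 0 / h := by simp
  conv_lhs => rw [this]
  rw [max_div_div_right hh0.le]

end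

theorem t_LAW : S_LAW := by
  intro Ω _ P A U hU hA
  have := hU.prob
  refine ⟨?_, ?_, unit_ae hU, ?_, ?_⟩
  · intro x y
    rw [void_eq]
    exact vd_meas hU measurableSet_Ioc
  · intro x y p hp hy
    rw [ev_eq]
    exact ev_real hU x y hp
  · intro x y hx hy
    rw [void_eq, vd_real hU measurableSet_Ioc (x + y) (fun b hb => hb.2)]
    refine Finset.prod_congr rfl (fun p hp => ?_)
    rw [ev_real hU x y (Finset.mem_filter.1 hp).2]
  · intro x y x' y' hx hy hy' hxx
    have hi : void A U x y ∩ void A U x' y' =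
        vd A U (Set.Ioc x (x + y) ∪ Set.Ioc x' (x' + y')) := by
      rw [void_eq, void_eq]
      ext ω
      constructor
      · rintro ⟨a, b⟩ p hp hc
        rcases hc with hc | hc
        · exact a p hp hc
        · exact b p hp hc
      · intro h
        exact ⟨fun p hp hc => h p hp (Or.inl hc), fun p hp hc => h p hp (Or.inr hc)⟩
    rw [hi, void_eq, void_eq,
      vd_real hU (measurableSet_Ioc.union measurableSet_Ioc) (x' + y') (by
        rintro b (hb | hb)
        · linarith [hb.2]
        · exact hb.2),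
      vd_real hU measurableSet_Ioc (x' + y') (fun b hb => by linarith [hb.2]),
      vd_real hU measurableSet_Ioc (x' + y') (fun b hb => hb.2), ← Finset.prod_mul_distrib]
    refine Finset.prod_le_prod (fun p _ => ?_) (fun p _ => ?_)
    · exact sub_nonneg.2 measureReal_le_one
    · have hd : Disjoint (dis A U p ⁻¹' Set.Ioc x (x + y)) (dis A U p ⁻¹' Set.Ioc x' (x' + y')) := by
        refine Disjoint.preimage _ ?_
        rw [Set.disjoint_left]
        intro b hb hb'
        linarith [hb.2, hb'.1]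
      rw [Set.preimage_union, measureReal_union hd (dis_meas hU p measurableSet_Ioc)]
      have a := measureReal_nonneg (μ := P) (s := dis A U p ⁻¹' Set.Ioc x (x + y))
      have b := measureReal_nonneg (μ := P) (s := dis A U p ⁻¹' Set.Ioc x' (x' + y'))
      nlinarith [mul_nonneg a b]

end Pool.Agent.U27.DP
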